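import Pool.Agent.H14.NT.St

set_option autoImplicit false

namespace Pool.Agent.H35.NT

open Filter

namespace Lim

variable {H : ℕ → Type} [∀ n, Group (H n)] (t : ∀ n, H n →* H (n + 1))

/-- eventually compatible sequences -/
def PP : Subgroup (∀ n, H n) where
  carrier := {x | ∀ᶠ n in atTop, x (n + 1) = t n (x n)}
  mul_mem' := by
    intro a b ha hb
    filter_upwards [ha, hb] with n h1 h2
    simp [h1, h2]
  one_mem' := by simp
  inv_mem' := by
    intro a ha
    filter_upwards [ha] with n h1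
    simp [h1]

/-- eventually trivial sequences -/
def NN : Subgroup (PP t) where
  carrier := {x | ∀ᶠ n in atTop, x.1 n = 1}
  mul_mem' := by
    intro a b ha hb
    filter_upwards [ha, hb] with n h1 h2
    simp [h1, h2]
  one_mem' := by simp
  inv_mem' := by
    intro a ha
    filter_upwards [ha] with n h1
    simp [h1]

instance : (NN t).Normal := by
  refine ⟨fun a ha g => ?_⟩
  have ha' : ∀ᶠ n in atTop, a.1 n = 1 := ha
  show ∀ᶠ n in atTop, (g * a * g⁻¹).1 n = 1
  filter_upwards [ha'] with n h1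
  simp [h1]

/-- the direct limit -/
abbrev LL : Type := PP t ⧸ NN t

theorem mem_PP {x : ∀ n, H n} : x ∈ PP t ↔ ∀ᶠ n in atTop, x (n + 1) = t n (x n) := Iff.rfl

theorem mem_NN {x : PP t} : x ∈ NN t ↔ ∀ᶠ n in atTop, x.1 n = 1 := Iff.rfl

theorem mk_eq {x y : PP t} (h : ∀ᶠ n in atTop, x.1 n = y.1 n) :
    (QuotientGroup.mk x : LL t) = QuotientGroup.mk y := by
  rw [QuotientGroup.eq, mem_NN]
  filter_upwards [h] with n hn
  simp [hn]

theorem eq_of_mk {x y : PP t} (h : (QuotientGroup.mk x : LL t) = QuotientGroup.mk y) :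
    ∀ᶠ n in atTop, x.1 n = y.1 n := by
  rw [QuotientGroup.eq, mem_NN] at h
  filter_upwards [h] with n hn
  simp only [Subgroup.coe_mul, Subgroup.coe_inv, Pi.mul_apply, Pi.inv_apply] at hn
  exact (inv_mul_eq_one.mp hn)

/-- the orbit of an element of `H 0` -/
def orb (h : H 0) : ∀ n, H n := fun n => Nat.rec h (fun n x => t n x) n

/-- the map `H 0 → LL t` -/
def eta : H 0 →* LL t :=
  (QuotientGroup.mk' (NN t)).comp
    { toFun := fun h => ⟨orb t h, Eventually.of_forall fun _ => rfl⟩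
      map_one' := by
        apply Subtype.ext
        funext n
        show orb t 1 n = 1
        induction n with
        | zero => rfl
        | succ n ih =>
          show t n (orb t 1 n) = 1
          rw [ih, map_one]
      map_mul' := by
        intro a b
        apply Subtype.ext
        funext n
        show orb t (a * b) n = orb t a n * orb t b n
        induction n with
        | zero => rfl
        | succ n ih =>
          show t n (orb t (a * b) n) = t n (orb t a n) * t n (orb t b n)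
          rw [ih, map_mul] }

theorem eta_apply (h : H 0) : eta t h = QuotientGroup.mk (s := NN t)
    ⟨orb t h, Eventually.of_forall fun n => rfl⟩ := rfl

theorem orb_ne (ht : ∀ n, Function.Injective (t n)) {a b : H 0} (hab : a ≠ b) (n : ℕ) :
    orb t a n ≠ orb t b n := by
  induction n with
  | zero => exact hab
  | succ n ih =>
    intro h
    exact ih (ht n h)

theorem eta_inj (ht : ∀ n, Function.Injective (t n)) : Function.Injective (eta t) := by
  intro a b hab
  rw [eta_apply, eta_apply] at hab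
  by_contra hne
  obtain ⟨n, hn⟩ := (eq_of_mk t hab).exists
  exact orb_ne t ht hne n hn

/-- shift of sequences by maps `β n : H n → H (n+1)` -/
def sh (β : ∀ n, H n →* H (n + 1)) (x : ∀ n, H n) : ∀ n, H n
  | 0 => 1
  | n + 1 => β n (x n)

/-- the endomorphism induced by maps `β n : H n → H (n+1)` commuting with `t` -/
def theta (β : ∀ n, H n →* H (n + 1)) (hβ : ∀ n x, β (n + 1) (t n x) = t (n + 1) (β n x)) :
    LL t →* LL t :=
  QuotientGroup.map (NN t) (NN t)
    { toFun := fun x => ⟨sh β x.1, by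
        rw [mem_PP]
        have hx := x.2
        rw [mem_PP] at hx
        have h1 : ∀ᶠ n in atTop, sh β x.1 (n + 1 + 1) = t (n + 1) (sh β x.1 (n + 1)) := by
          filter_upwards [hx] with n hn
          show β (n + 1) (x.1 (n + 1)) = t (n + 1) (β n (x.1 n))
          rw [hn, hβ]
        rw [eventually_atTop] at h1 ⊢
        obtain ⟨N, hN⟩ := h1
        refine ⟨N + 1, fun b hb => ?_⟩
        obtain ⟨c, rfl⟩ : ∃ c, b = c + 1 := ⟨b - 1, by omega⟩
        exact hN c (by omega)⟩
      map_one' := by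
        apply Subtype.ext
        funext n
        cases n with
        | zero => rfl
        | succ n => show β n 1 = 1; simp
      map_mul' := by
        intro x y
        apply Subtype.ext
        funext n
        cases n with
        | zero => show (1 : H 0) = 1 * 1; simp
        | succ n => show β n (x.1 n * y.1 n) = β n (x.1 n) * β n (y.1 n); simp }
    (by
      intro x hx
      rw [mem_NN] at hx
      rw [Subgroup.mem_comap, mem_NN]
      have h1 : ∀ᶠ n in atTop, sh β x.1 (n + 1) = 1 := by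
        filter_upwards [hx] with n hn
        show β n (x.1 n) = 1
        rw [hn, map_one]
      rw [eventually_atTop] at h1 ⊢
      obtain ⟨N, hN⟩ := h1
      refine ⟨N + 1, fun b hb => ?_⟩
      obtain ⟨c, rfl⟩ : ∃ c, b = c + 1 := ⟨b - 1, by omega⟩
      exact hN c (by omega))

theorem ev_succ {p : ℕ → Prop} (h : ∀ᶠ n in atTop, p (n + 1)) : ∀ᶠ n in atTop, p n := by
  rw [eventually_atTop] at h ⊢
  obtain ⟨N, hN⟩ := h
  refine ⟨N + 1, fun b hb => ?_⟩
  obtain ⟨c, rfl⟩ : ∃ c, b = c + 1 := ⟨b - 1, by omega⟩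
  exact hN c (by omega)

theorem theta_mk (β : ∀ n, H n →* H (n + 1)) (hβ : ∀ n x, β (n + 1) (t n x) = t (n + 1) (β n x))
    (x : PP t) : ∃ hx : sh β x.1 ∈ PP t,
      theta t β hβ (QuotientGroup.mk x) = QuotientGroup.mk (s := NN t) ⟨sh β x.1, hx⟩ := ⟨_, rfl⟩

theorem theta_inj (β : ∀ n, H n →* H (n + 1))
    (hβ : ∀ n x, β (n + 1) (t n x) = t (n + 1) (β n x)) (hi : ∀ n, Function.Injective (β n)) :
    Function.Injective (theta t β hβ) := by
  rw [injective_iff_map_eq_one]
  intro a ha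
  obtain ⟨x, rfl⟩ := QuotientGroup.mk_surjective a
  obtain ⟨hx, he⟩ := theta_mk t β hβ x
  rw [he] at ha
  have h1 := eq_of_mk t (y := 1) ha
  rw [eventually_atTop] at h1
  obtain ⟨N, hN⟩ := h1
  refine mk_eq t (y := 1) ?_
  rw [eventually_atTop]
  refine ⟨N, fun b hb => ?_⟩
  have := hN (b + 1) (by omega)
  have h2 : β b (x.1 b) = 1 := this
  exact hi b (by rw [h2]; exact (map_one _).symm)

theorem theta_surj (β : ∀ n, H n →* H (n + 1))
    (hβ : ∀ n x, β (n + 1) (t n x) = t (n + 1) (β n x)) (hi : ∀ n, Function.Injective (β n))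
    (hs : ∀ N, ∃ n, N ≤ n ∧ ∀ y : H n, ∃ w : H (n + 1), β (n + 1) w = t (n + 1) (t n y)) :
    Function.Surjective (theta t β hβ) := by
  intro a
  obtain ⟨y, rfl⟩ := QuotientGroup.mk_surjective a
  have hy := y.2
  rw [mem_PP, eventually_atTop] at hy
  obtain ⟨N, hN⟩ := hy
  obtain ⟨n0, hn0, hw⟩ := hs N
  have key : ∀ m, n0 + 1 ≤ m → ∃ w : H m, β m w = t m (y.1 m) := by
    intro m hm
    induction m, hm using Nat.le_induction with
    | base =>
      obtain ⟨w, hw⟩ := hw (y.1 n0)
      refine ⟨w, ?_⟩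
      rw [hw, hN n0 hn0]
    | succ m hm ih =>
      obtain ⟨w, hw⟩ := ih
      refine ⟨t m w, ?_⟩
      rw [hβ, hw, hN m (by omega)]
  classical
  let x : ∀ n, H n := fun n => if h : ∃ w : H n, β n w = t n (y.1 n) then h.choose else 1
  have hx : ∀ m, n0 + 1 ≤ m → β m (x m) = t m (y.1 m) := by
    intro m hm
    have h := key m hm
    simp only [x, dif_pos h]
    exact h.choose_spec
  have hxP : x ∈ PP t := by
    rw [mem_PP, eventually_atTop]
    refine ⟨n0 + 1, fun m hm => ?_⟩
    apply hi (m + 1)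
    rw [hx (m + 1) (by omega), hβ, hx m hm, hN m (by omega)]
  refine ⟨QuotientGroup.mk ⟨x, hxP⟩, ?_⟩
  obtain ⟨hx', he⟩ := theta_mk t β hβ ⟨x, hxP⟩
  rw [he]
  refine mk_eq t ?_
  apply ev_succ
  rw [eventually_atTop]
  refine ⟨n0 + 1, fun m hm => ?_⟩
  show β m (x m) = y.1 (m + 1)
  rw [hx m hm, hN m (by omega)]

/-- the map `LL t → V` induced by compatible maps -/
noncomputable def nu {V : Type} [Group V] (ν : ∀ n, H n →* V) (hν : ∀ n x, ν (n + 1) (t n x) = ν n x) :
    LL t →* V := by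
  classical
  have hex : ∀ x : PP t, ∃ v : V, ∀ᶠ n in atTop, ν n (x.1 n) = v := by
    intro x
    have hx := x.2
    rw [mem_PP, eventually_atTop] at hx
    obtain ⟨N, hN⟩ := hx
    refine ⟨ν N (x.1 N), ?_⟩
    rw [eventually_atTop]
    refine ⟨N, fun m hm => ?_⟩
    induction m, hm using Nat.le_induction with
    | base => rfl
    | succ m hm ih => rw [hN m hm, hν, ih]
  exact QuotientGroup.lift (NN t)
    { toFun := fun x => (hex x).choose
      map_one' := by
        obtain ⟨n, hn⟩ := (hex 1).choose_spec.exists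
        rw [← hn]
        exact map_one _
      map_mul' := by
        intro x y
        obtain ⟨n, ⟨h1, h2⟩, h3⟩ := (((hex x).choose_spec.and (hex y).choose_spec).and
          (hex (x * y)).choose_spec).exists
        rw [← h1, ← h2, ← h3]
        exact map_mul _ _ _ }
    (by
      intro x hx
      rw [mem_NN] at hx
      obtain ⟨n, h1, h2⟩ := (hx.and (hex x).choose_spec).exists
      show (hex x).choose = 1
      rw [← h2, h1, map_one])

theorem nu_mk {V : Type} [Group V] (ν : ∀ n, H n →* V) (hν : ∀ n x, ν (n + 1) (t n x) = ν n x)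
    (x : PP t) : ∀ᶠ n in atTop, nu t ν hν (QuotientGroup.mk x) = ν n (x.1 n) := by
  have hex : ∃ v : V, ∀ᶠ n in atTop, ν n (x.1 n) = v := by
    have hx := x.2
    rw [mem_PP, eventually_atTop] at hx
    obtain ⟨N, hN⟩ := hx
    refine ⟨ν N (x.1 N), ?_⟩
    rw [eventually_atTop]
    refine ⟨N, fun m hm => ?_⟩
    induction m, hm using Nat.le_induction with
    | base => rfl
    | succ m hm ih => rw [hN m hm, hν, ih]
  have h : nu t ν hν (QuotientGroup.mk x) = hex.choose := rfl
  rw [h]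
  filter_upwards [hex.choose_spec] with n hn
  exact hn.symm

end Lim

/-- the statement of `step` (module G) -/
def StepStmt : Prop := ∀ {V : Type} [CommGroup V] (_ : ∀ v : V, v ^ 2 = 1)
    (τ : Bool → Bool → Fin 3 → V ≃* V) (l : Bool) (S : St V τ),
    ∃ (S' : St V τ) (κ : S.H →* S'.A), Function.Injective κ ∧
      (∀ l s k a, S'.α l s k (κ (S.ι a)) = S'.ι (κ (S.α l s k a))) ∧
      S'.ι (κ S.c) = S'.c ∧ (∀ h, S'.ν (S'.ι (κ h)) = S.ν h) ∧
      (∀ s k (h : S.H), ∃ z : S'.A, S'.α (!l) s k z = S'.ι (κ h))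

/-- iteration of a step, the index tells the parity -/
def seqSt {V : Type} [CommGroup V] {τ : Bool → Bool → Fin 3 → V ≃* V} (F : Bool → St V τ → St V τ)
    (S : St V τ) : ℕ → St V τ
  | 0 => S
  | n + 1 => F (decide (Even n)) (seqSt F S n)

theorem limit_seq {V : Type} [CommGroup V] {τ : Bool → Bool → Fin 3 → V ≃* V}
    (Sq : ℕ → St V τ) (K : ∀ n : ℕ, (Sq n).H →* (Sq (n + 1)).A)
    (Kinj : ∀ n : ℕ, Function.Injective (K n))
    (Kα : ∀ (n : ℕ) l s k a, (Sq (n + 1)).α l s k (K n ((Sq n).ι a)) =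
      (Sq (n + 1)).ι (K n ((Sq n).α l s k a)))
    (Kc : ∀ n : ℕ, (Sq (n + 1)).ι (K n (Sq n).c) = (Sq (n + 1)).c)
    (Kν : ∀ (n : ℕ) h, (Sq (n + 1)).ν ((Sq (n + 1)).ι (K n h)) = (Sq n).ν h)
    (Ks : ∀ (n : ℕ) s k (h : (Sq n).H), ∃ z : (Sq (n + 1)).A,
      (Sq (n + 1)).α (!(decide (Even n))) s k z = (Sq (n + 1)).ι (K n h)) :
    ∃ (L : Type) (_ : Group L) (θ : Bool → Bool → Fin 3 → L ≃* L) (ν : L →* V) (η : (Sq 0).H →* L),
      Function.Injective η ∧ (∀ h, ν (η h) = (Sq 0).ν h) ∧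
      (∀ l s k x, ν (θ l s k x) = τ l s k (ν x)) ∧
      (∀ x : L, x ≠ 1 → ∃ l, (θ l true 0 x * θ l true 1 x * θ l true 2 x) ^ 2 =
        η (Sq 0).c * (θ l false 0 x * θ l false 1 x * θ l false 2 x) ^ 2) := by
  classical
  let t : ∀ n : ℕ, (Sq n).H →* (Sq (n + 1)).H := fun n => (Sq (n + 1)).ι.comp (K n)
  have Kc : ∀ n : ℕ, t n (Sq n).c = (Sq (n + 1)).c := Kc
  have Kν : ∀ (n : ℕ) h, (Sq (n + 1)).ν (t n h) = (Sq n).ν h := Kν
  have tinj : ∀ n : ℕ, Function.Injective (t n) := fun n => (Sq (n + 1)).ι_inj.comp (Kinj n)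
  let β : Bool → Bool → Fin 3 → ∀ n : ℕ, (Sq n).H →* (Sq (n + 1)).H := fun l s k n =>
    ((Sq (n + 1)).α l s k).comp (K n)
  have βinj : ∀ l s k (n : ℕ), Function.Injective (β l s k n) := fun l s k n =>
    ((Sq (n + 1)).α_inj l s k).comp (Kinj n)
  have hβ : ∀ l s k (n : ℕ) x, β l s k (n + 1) (t n x) = t (n + 1) (β l s k n x) := by
    intro l s k n x
    exact Kα (n + 1) l s k (K n x)
  have βsurj : ∀ l s k (N : ℕ), ∃ n, N ≤ n ∧ ∀ y : (Sq n).H, ∃ w : (Sq (n + 1)).H,
      β l s k (n + 1) w = t (n + 1) (t n y) := by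
    intro l s k N
    obtain ⟨n, hn, hp⟩ : ∃ n, N ≤ n ∧ (!(decide (Even n))) = l := by
      cases l with
      | true =>
        refine ⟨2 * N + 1, by omega, ?_⟩
        simp
      | false =>
        refine ⟨2 * N, by omega, ?_⟩
        simp
    refine ⟨n, hn, fun y => ?_⟩
    obtain ⟨z, hz⟩ := Ks n s k y
    rw [hp] at hz
    refine ⟨(Sq (n + 1)).ι z, ?_⟩
    have h5 : t n y = (Sq (n + 1)).α l s k z := hz.symm
    rw [h5]
    exact Kα (n + 1) l s k z
  refine ⟨Lim.LL t, inferInstance, fun l s k => MulEquiv.ofBijective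
    (Lim.theta t (β l s k) (hβ l s k)) ⟨Lim.theta_inj t _ _ (βinj l s k),
      Lim.theta_surj t _ (hβ l s k) (βinj l s k) (βsurj l s k)⟩,
    Lim.nu t (fun n => (Sq n).ν) Kν, Lim.eta t, Lim.eta_inj t tinj, ?_, ?_, ?_⟩
  · intro h
    rw [Lim.eta_apply]
    have h1 := Lim.nu_mk t (fun n => (Sq n).ν) Kν
      ⟨Lim.orb t h, Eventually.of_forall fun n => rfl⟩
    have h2 : ∀ n, (Sq n).ν (Lim.orb t h n) = (Sq 0).ν h := by
      intro n
      induction n with
      | zero => rfl
      | succ n ih => exact (Kν n (Lim.orb t h n)).trans ih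
    obtain ⟨n, hn⟩ := h1.exists
    exact hn.trans (h2 n)
  · intro l s k x
    obtain ⟨x, rfl⟩ := QuotientGroup.mk_surjective x
    show Lim.nu t (fun n => (Sq n).ν) Kν (Lim.theta t (β l s k) (hβ l s k) (QuotientGroup.mk x)) = _
    obtain ⟨hx, he⟩ := Lim.theta_mk t (β l s k) (hβ l s k) x
    rw [he]
    have h1 := Lim.nu_mk t (fun n => (Sq n).ν) Kν ⟨Lim.sh (β l s k) x.1, hx⟩
    have h2 := Lim.nu_mk t (fun n => (Sq n).ν) Kν x
    rw [eventually_atTop] at h1 h2
    obtain ⟨N1, h1⟩ := h1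
    obtain ⟨N2, h2⟩ := h2
    rw [h1 (N1 + N2 + 1) (by omega), h2 (N1 + N2) (by omega)]
    show (Sq (N1 + N2 + 1)).ν ((Sq (N1 + N2 + 1)).α l s k (K (N1 + N2) (x.1 (N1 + N2)))) = _
    rw [(Sq (N1 + N2 + 1)).ν_α]
    congr 1
    exact Kν (N1 + N2) (x.1 (N1 + N2))
  · intro x hx
    obtain ⟨x, rfl⟩ := QuotientGroup.mk_surjective x
    have hxP := x.2
    rw [Lim.mem_PP, eventually_atTop] at hxP
    obtain ⟨N, hN⟩ := hxP
    have hne : ∃ n, N ≤ n ∧ x.1 n ≠ 1 := by
      by_contra hcon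
      push Not at hcon
      apply hx
      refine Lim.mk_eq t (y := 1) ?_
      rw [eventually_atTop]
      exact ⟨N, hcon⟩
    obtain ⟨n, hn, hxn⟩ := hne
    obtain ⟨l, hl⟩ := (Sq (n + 1)).law (K n (x.1 n)) (fun h => hxn (Kinj n (by rw [h, map_one])))
    refine ⟨l, ?_⟩
    have key : ∀ m, n ≤ m →
        (β l true 0 m (x.1 m) * β l true 1 m (x.1 m) * β l true 2 m (x.1 m)) ^ 2 =
        (Sq (m + 1)).c *
          (β l false 0 m (x.1 m) * β l false 1 m (x.1 m) * β l false 2 m (x.1 m)) ^ 2 := by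
      intro m hm
      induction m, hm using Nat.le_induction with
      | base => exact hl
      | succ m hm ih =>
        have h3 : x.1 (m + 1) = t m (x.1 m) := hN m (by omega)
        have h4 := congrArg (t (m + 1)) ih
        simp only [map_mul, map_pow, ← hβ, Kc] at h4
        rw [h3]
        exact h4
    have horb : ∀ m, Lim.orb t (Sq 0).c m = (Sq m).c := by
      intro m
      induction m with
      | zero => rfl
      | succ m ih =>
        show t m (Lim.orb t (Sq 0).c m) = _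
        rw [ih, Kc]
    show (Lim.theta t (β l true 0) (hβ l true 0) (QuotientGroup.mk x) *
      Lim.theta t (β l true 1) (hβ l true 1) (QuotientGroup.mk x) *
      Lim.theta t (β l true 2) (hβ l true 2) (QuotientGroup.mk x)) ^ 2 =
      Lim.eta t (Sq 0).c * (Lim.theta t (β l false 0) (hβ l false 0) (QuotientGroup.mk x) *
      Lim.theta t (β l false 1) (hβ l false 1) (QuotientGroup.mk x) *
      Lim.theta t (β l false 2) (hβ l false 2) (QuotientGroup.mk x)) ^ 2
    obtain ⟨h10, e10⟩ := Lim.theta_mk t (β l true 0) (hβ l true 0) x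
    obtain ⟨h11, e11⟩ := Lim.theta_mk t (β l true 1) (hβ l true 1) x
    obtain ⟨h12, e12⟩ := Lim.theta_mk t (β l true 2) (hβ l true 2) x
    obtain ⟨h20, e20⟩ := Lim.theta_mk t (β l false 0) (hβ l false 0) x
    obtain ⟨h21, e21⟩ := Lim.theta_mk t (β l false 1) (hβ l false 1) x
    obtain ⟨h22, e22⟩ := Lim.theta_mk t (β l false 2) (hβ l false 2) x
    rw [e10, e11, e12, e20, e21, e22, Lim.eta_apply]
    simp only [← QuotientGroup.mk_mul, ← QuotientGroup.mk_pow]
    refine Lim.mk_eq t ?_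
    apply Lim.ev_succ
    rw [eventually_atTop]
    refine ⟨n, fun m hm => ?_⟩
    have := key m hm
    rw [← horb] at this
    exact this

theorem limit_of_step (step : StepStmt) {V : Type} [CommGroup V] (hV : ∀ v : V, v ^ 2 = 1)
    (τ : Bool → Bool → Fin 3 → V ≃* V) (S : St V τ) :
    ∃ (L : Type) (_ : Group L) (θ : Bool → Bool → Fin 3 → L ≃* L) (ν : L →* V) (η : S.H →* L),
      Function.Injective η ∧ (∀ h, ν (η h) = S.ν h) ∧
      (∀ l s k x, ν (θ l s k x) = τ l s k (ν x)) ∧
      (∀ x : L, x ≠ 1 → ∃ l, (θ l true 0 x * θ l true 1 x * θ l true 2 x) ^ 2 =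
        η S.c * (θ l false 0 x * θ l false 1 x * θ l false 2 x) ^ 2) := by
  choose F κ κinj hα hc hν hs using fun (l : Bool) (S : St V τ) => step hV τ l S
  exact limit_seq (seqSt F S) (fun n => κ (decide (Even n)) (seqSt F S n))
    (fun n => κinj _ _) (fun n => hα _ _) (fun n => hc _ _) (fun n => hν _ _) (fun n => hs _ _)

end Pool.Agent.H35.NT
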